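import Mathlib

/-!
Differential products on the ring `A = ℝ[u_0, u_1, u_2, ...]`.
-/

open MvPolynomial

namespace Pool.Agent.H0.Jet

/-- The polynomial ring in the variables `u_0, u_1, u_2, ...`; `X i` is `u_i`. -/
abbrev A := MvPolynomial ℕ ℝ

/-- The derivation with `d u_i = u_{i+1}`. -/
noncomputable def d : Derivation ℝ A A := mkDerivation ℝ fun i => X (i + 1)

/-- The product `f * g = ∑_i (f_i d^i g + (-d)^i (f g_i))`; only finitely many terms are not
zero. -/
noncomputable def dprod (f g : A) : A :=
  ∑ᶠ i : ℕ, (pderiv i f * d^[i] g + (-1) ^ i * d^[i] (f * pderiv i g))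

theorem term_zero {f g : A} {i : ℕ} (hf : i ∉ f.vars) (hg : i ∉ g.vars) :
    pderiv i f * d^[i] g + (-1) ^ i * d^[i] (f * pderiv i g) = 0 := by
  rw [pderiv_eq_zero_of_notMem_vars hf, pderiv_eq_zero_of_notMem_vars hg, mul_zero, zero_mul,
    zero_add, iterate_map_zero, mul_zero]

theorem dprod_eq_sum (f g : A) (s : Finset ℕ) (hf : f.vars ⊆ s) (hg : g.vars ⊆ s) :
    dprod f g = ∑ i ∈ s, (pderiv i f * d^[i] g + (-1) ^ i * d^[i] (f * pderiv i g)) := by
  unfold dprod
  refine finsum_eq_sum_of_support_subset _ fun i hi => ?_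
  by_contra hcon
  exact hi (term_zero (fun h => hcon (hf h)) (fun h => hcon (hg h)))

theorem d_iter_smul (c : ℝ) (f : A) (i : ℕ) : d^[i] (c • f) = c • d^[i] f := by
  induction i with
  | zero => rfl
  | succ i ih => rw [Function.iterate_succ_apply', Function.iterate_succ_apply', ih, Derivation.map_smul]

/-- The subspace `H(g) = {h : h * g = 0}`. -/
noncomputable def H (g : A) : Submodule ℝ A where
  carrier := {h | dprod h g = 0}
  zero_mem' := by
    change dprod 0 g = 0
    rw [dprod_eq_sum 0 g g.vars (by simp) subset_rfl]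
    refine Finset.sum_eq_zero fun i _ => ?_
    rw [map_zero, zero_mul, zero_mul, zero_add, iterate_map_zero, mul_zero]
  add_mem' := by
    intro h k hh hk
    change dprod (h + k) g = 0
    have hh' : dprod h g = 0 := hh
    have hk' : dprod k g = 0 := hk
    set s := h.vars ∪ k.vars ∪ g.vars with hs
    have s1 : h.vars ⊆ s := fun i hi => by simp [hs, hi]
    have s2 : k.vars ⊆ s := fun i hi => by simp [hs, hi]
    have s3 : g.vars ⊆ s := fun i hi => by simp [hs, hi]
    have s4 : (h + k).vars ⊆ s := by
      classical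
      exact (vars_add_subset h k).trans (Finset.union_subset s1 s2)
    rw [dprod_eq_sum _ _ s s1 s3] at hh'
    rw [dprod_eq_sum _ _ s s2 s3] at hk'
    rw [dprod_eq_sum _ _ s s4 s3, ← add_zero (0 : A)]
    nth_rw 1 [← hh']
    rw [← hk', ← Finset.sum_add_distrib]
    refine Finset.sum_congr rfl fun i _ => ?_
    rw [map_add, add_mul, add_mul, iterate_map_add]
    ring
  smul_mem' := by
    intro c h hh
    change dprod (c • h) g = 0
    have hh' : dprod h g = 0 := hh
    set s := h.vars ∪ g.vars with hs
    have s1 : h.vars ⊆ s := fun i hi => by simp [hs, hi]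
    have s3 : g.vars ⊆ s := fun i hi => by simp [hs, hi]
    have s4 : (c • h).vars ⊆ s := by
      refine subset_trans ?_ s1
      intro i hi
      by_contra hcon
      have h1 := pderiv_eq_zero_of_notMem_vars (R := ℝ) hcon
      rw [mem_vars_iff_mem_support] at hi
      obtain ⟨m, hm, him⟩ := hi
      refine hcon ((mem_vars_iff_mem_support i).2 ⟨m, ?_, him⟩)
      rw [mem_support_iff] at hm ⊢
      intro h0
      exact hm (by rw [coeff_smul, h0, smul_zero])
    rw [dprod_eq_sum _ _ s s1 s3] at hh'
    rw [dprod_eq_sum _ _ s s4 s3, ← smul_zero c, ← hh', Finset.smul_sum]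
    refine Finset.sum_congr rfl fun i _ => ?_
    rw [Derivation.map_smul, smul_mul_assoc, smul_mul_assoc, d_iter_smul, smul_add, mul_smul_comm]

end Pool.Agent.H0.Jet
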