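import Pool.Agent.H0.Jet.Defs

open MvPolynomial

namespace Pool.Agent.H0.Jet

/-- `∂_j` written as a function. -/
noncomputable abbrev pd (j : ℕ) : Derivation ℝ A A := pderiv j

@[simp] theorem d_X (i : ℕ) : d (X i) = X (i + 1) := by simp [d]

theorem pd_X (i j : ℕ) : pd i (X j) = if j = i then 1 else 0 := by
  simp only [pd, pderiv_X, Pi.single_apply]

/-- Commutation of `∂_{j+1}` and `d`. -/
theorem pd_succ_d (j : ℕ) (f : A) : pd (j + 1) (d f) = d (pd (j + 1) f) + pd j f := by
  have h : ⁅pd (j + 1), d⁆ = pd j := by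
    refine derivation_ext fun i => ?_
    rw [Derivation.commutator_apply, d_X, pd_X, pd_X, pd_X]
    by_cases hij : i = j
    · subst hij
      simp
    · rw [if_neg (by omega), if_neg hij]
      split_ifs <;> simp
  have h2 := congrArg (fun D : Derivation ℝ A A => D f) h
  simp only [Derivation.commutator_apply] at h2
  rw [← h2]
  ring

theorem pd_comm (i j : ℕ) (f : A) : pd i (pd j f) = pd j (pd i f) := by
  have h : ⁅pd i, pd j⁆ = 0 := by
    refine derivation_ext fun k => ?_
    rw [Derivation.commutator_apply, pd_X, pd_X]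
    split_ifs <;> simp
  have h2 := congrArg (fun D : Derivation ℝ A A => D f) h
  simp only [Derivation.commutator_apply, Derivation.coe_zero, Pi.zero_apply] at h2
  exact sub_eq_zero.1 h2

theorem d_mul (f g : A) : d (f * g) = f * d g + g * d f := by
  rw [Derivation.leibniz, smul_eq_mul, smul_eq_mul]

theorem pd_mul (i : ℕ) (f g : A) : pd i (f * g) = f * pd i g + g * pd i f := by
  rw [Derivation.leibniz, smul_eq_mul, smul_eq_mul]

/-- `f` involves only `u_0, ..., u_n`. -/
def Ord (f : A) (n : ℕ) : Prop := ∀ j, n < j → pd j f = 0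

theorem Ord.pd {f : A} {n : ℕ} (h : Ord f n) (i : ℕ) : Ord (pd i f) n := by
  intro j hj
  rw [pd_comm, h j hj, map_zero]

/-! ### The polynomial `g` -/

/-- `g = u_2^2 - 4 u_1 u_3 + u_3^2`. -/
noncomputable def g : A := X 2 * X 2 - 4 * (X 1 * X 3) + X 3 * X 3

theorem pd_four (i : ℕ) : pd i (4 : A) = 0 := by
  have := Derivation.map_natCast (pd i) 4
  exact_mod_cast this

theorem pd_two (i : ℕ) : pd i (2 : A) = 0 := by
  have := Derivation.map_natCast (pd i) 2
  exact_mod_cast this

theorem d_four : d (4 : A) = 0 := by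
  have := Derivation.map_natCast d 4
  exact_mod_cast this

theorem d_two : d (2 : A) = 0 := by
  have := Derivation.map_natCast d 2
  exact_mod_cast this

theorem pd_d2 (j : ℕ) (h : A) : pd (j + 2) (d (d h))
    = d (d (pd (j + 2) h)) + 2 * d (pd (j + 1) h) + pd j h := by
  rw [show j + 2 = (j + 1) + 1 by ring, pd_succ_d, pd_succ_d, pd_succ_d, map_add]
  ring

theorem pd_d3 (j : ℕ) (h : A) : pd (j + 3) (d (d (d h)))
    = d (d (d (pd (j + 3) h))) + 3 * d (d (pd (j + 2) h)) + 3 * d (pd (j + 1) h) + pd j h := by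
  rw [show j + 3 = (j + 2) + 1 by ring, pd_succ_d, pd_d2, show j + 2 = (j + 1) + 1 by ring,
    show j + 1 + 1 + 1 = (j + 1) + 2 by ring, pd_d2, map_add, map_add, d_mul, d_two]
  ring

theorem g1 : pd 1 g = - (4 * X 3) := by
  unfold g
  simp only [map_add, map_sub, pd_mul, pd_X, pd_four]
  norm_num
theorem g2 : pd 2 g = 2 * X 2 := by
  unfold g
  simp only [map_add, map_sub, pd_mul, pd_X, pd_four]
  norm_num
  ring
theorem g3 : pd 3 g = 2 * X 3 - 4 * X 1 := by
  unfold g
  simp only [map_add, map_sub, pd_mul, pd_X, pd_four]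
  norm_num
  ring
theorem g0 : pd 0 g = 0 := by
  unfold g
  simp only [map_add, map_sub, pd_mul, pd_X, pd_four]
  norm_num
theorem g_ord : Ord g 3 := by
  intro j hj
  unfold g
  simp only [map_add, map_sub, pd_mul, pd_X, pd_four]
  rw [if_neg (by omega), if_neg (by omega), if_neg (by omega)]
  simp

/-! ### Leading coefficients of `d^i g` -/

theorem ord_iter (i j : ℕ) (hj : i + 3 < j) : pd j (d^[i] g) = 0 := by
  induction i generalizing j with
  | zero => exact g_ord j hj
  | succ i ih =>
    obtain ⟨j, rfl⟩ : ∃ k, j = k + 1 := ⟨j - 1, by omega⟩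
    rw [Function.iterate_succ_apply', pd_succ_d, ih (j + 1) (by omega), ih j (by omega), map_zero,
      add_zero]

theorem lead_iter (i : ℕ) : pd (i + 3) (d^[i] g) = pd 3 g := by
  induction i with
  | zero => simp
  | succ i ih =>
    rw [Function.iterate_succ_apply', show i + 1 + 3 = (i + 3) + 1 by ring, pd_succ_d,
      ord_iter i _ (by omega), ih, map_zero, zero_add]

theorem sub_iter (i : ℕ) : pd (i + 2) (d^[i] g) = pd 2 g + (i : A) * d (pd 3 g) := by
  induction i with
  | zero => simp
  | succ i ih =>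
    rw [Function.iterate_succ_apply', show i + 1 + 2 = (i + 2) + 1 by ring, pd_succ_d,
      lead_iter i, ih]
    push_cast
    ring

/-- The sum defining `f * g` for `f` of order at most `n`. -/
theorem dprod_formula (f : A) (n : ℕ) (hn : 3 ≤ n) (hf : Ord f n) :
    dprod f g = ∑ i ∈ Finset.range (n + 1), pd i f * d^[i] g
      - d (f * pd 1 g) + d (d (f * pd 2 g)) - d (d (d (f * pd 3 g))) := by
  set s := f.vars ∪ g.vars ∪ Finset.range (n + 1) with hs
  rw [dprod_eq_sum f g s (fun i hi => by simp [hs, hi]) (fun i hi => by simp [hs, hi])]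
  have h1 : ∑ i ∈ s, (pderiv i f * d^[i] g + (-1) ^ i * d^[i] (f * pderiv i g))
      = ∑ i ∈ Finset.range (n + 1), (pderiv i f * d^[i] g + (-1) ^ i * d^[i] (f * pderiv i g)) := by
    symm
    refine Finset.sum_subset (fun i hi => by rw [hs]; exact Finset.mem_union_right _ hi) ?_
    intro i _ hi
    have hin : n < i := by simpa using hi
    have e1 : pderiv i f = 0 := hf i hin
    have e2 : pderiv i g = 0 := g_ord i (by omega)
    rw [e1, e2, zero_mul, mul_zero, iterate_map_zero, mul_zero, add_zero]
  rw [h1, Finset.sum_add_distrib]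
  have h2 : ∑ i ∈ Finset.range (n + 1), (-1 : A) ^ i * d^[i] (f * pderiv i g)
      = ∑ i ∈ Finset.range 4, (-1 : A) ^ i * d^[i] (f * pderiv i g) := by
    symm
    refine Finset.sum_subset (Finset.range_mono (by omega)) ?_
    intro i _ hi
    have hi3 : 3 < i := by
      have := hi
      simp only [Finset.mem_range, not_lt] at this
      omega
    have e2 : pderiv i g = 0 := g_ord i hi3
    rw [e2, mul_zero, iterate_map_zero, mul_zero]
  rw [h2]
  have e0 : pderiv 0 g = 0 := g0
  simp only [Finset.sum_range_succ, Finset.sum_range_zero, e0, pd]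
  simp only [Function.iterate_succ, Function.iterate_zero, Function.comp, id]
  ring

/-- First-order consequence of `f * g = 0`. -/
theorem lead_eq (f : A) (n : ℕ) (hn : 5 ≤ n) (hf : Ord f n) (h : dprod f g = 0) :
    ((n : A) - 3) * pd n f * d (pd 3 g) + 2 * pd 2 g * pd n f = 3 * pd 3 g * d (pd n f) := by
  rw [dprod_formula f n (by omega) hf] at h
  obtain ⟨k, rfl⟩ : ∃ k, n = k + 5 := ⟨n - 5, by omega⟩
  have h0 := congrArg (pd (k + 5 + 2)) h
  rw [map_zero, map_sub, map_add, map_sub] at h0
  have hsum : pd (k + 5 + 2) (∑ i ∈ Finset.range (k + 5 + 1), pd i f * d^[i] g)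
      = pd (k + 4) f * pd 3 g + pd (k + 5) f * (pd 2 g + ((k + 5 : ℕ) : A) * d (pd 3 g)) := by
    rw [map_sum]
    have e : ∀ i, pd (k + 5 + 2) (pd i f * d^[i] g) = pd i f * pd (k + 5 + 2) (d^[i] g) := by
      intro i
      rw [pd_mul, (hf.pd i) _ (by omega), mul_zero, add_zero]
    simp_rw [e]
    rw [Finset.sum_range_succ, Finset.sum_range_succ, Finset.sum_eq_zero, zero_add]
    · rw [show k + 5 + 2 = (k + 4) + 3 by ring, lead_iter, show k + 4 + 3 = (k + 5) + 2 by ring,
        sub_iter]
    · intro i hi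
      rw [ord_iter i _ (by have := Finset.mem_range.1 hi; omega), mul_zero]
  have G : ∀ i j, 3 < j → pd j (pd i g) = 0 := fun i j hj => g_ord.pd i j hj
  have F0 : ∀ j, k + 5 < j → pd j f = 0 := hf
  have s1 : pd (k + 5 + 2) (d (f * pd 1 g)) = 0 := by
    rw [show k + 5 + 2 = (k + 6) + 1 by ring, pd_succ_d, pd_mul, pd_mul, G _ _ (by omega),
      G _ _ (by omega), F0 _ (by omega), F0 _ (by omega)]
    simp
  have s2 : pd (k + 5 + 2) (d (d (f * pd 2 g))) = pd 2 g * pd (k + 5) f := by
    rw [pd_d2, pd_mul, pd_mul, pd_mul, G _ _ (by omega),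
      G _ _ (by omega), G _ _ (by omega), F0 _ (by omega), F0 _ (by omega)]
    simp
  have s3 : pd (k + 5 + 2) (d (d (d (f * pd 3 g))))
      = 3 * d (pd 3 g * pd (k + 5) f) + pd 3 g * pd (k + 4) f := by
    rw [show k + 5 + 2 = (k + 4) + 3 by ring, pd_d3, pd_mul, pd_mul, pd_mul, pd_mul,
      G _ _ (by omega), G _ _ (by omega), G _ _ (by omega), G _ _ (by omega),
      F0 _ (by omega), F0 _ (by omega)]
    simp
  rw [hsum, s1, s2, s3, d_mul] at h0
  push_cast at h0 ⊢
  linear_combination h0

/-! ### No element of order at least five -/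

noncomputable def L : A := X 3 - 2 * X 1

theorem g3' : pd 3 g = 2 * L := by rw [g3, L]; ring

theorem L_ne : L ≠ 0 := by
  intro h
  have := congrArg (pd 3) h
  unfold L at this
  simp only [map_sub, pd_mul, pd_X, pd_two, map_zero] at this
  norm_num at this

theorem dL : d L = X 4 - 2 * X 2 := by
  unfold L
  rw [map_sub, d_mul, d_X, d_X, d_two]
  ring

theorem pd_L (j : ℕ) (hj : j ≠ 1) : pd j L = if 3 = j then 1 else 0 := by
  unfold L
  simp only [map_sub, pd_mul, pd_X, pd_two]
  rw [if_neg (by omega : ¬ 1 = j)]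
  ring

theorem iter_mul (i m : ℕ) (p : A) : (pd 2)^[m + 1] (p * X i)
    = X i * (pd 2)^[m + 1] p + ((m : A) + 1) * (pd 2 (X i)) * (pd 2)^[m] p := by
  have hc : pd 2 (pd 2 (X i)) = 0 := by rw [pd_X]; split_ifs <;> simp
  induction m with
  | zero =>
    simp only [zero_add, Function.iterate_one, Function.iterate_zero, id, Nat.cast_zero]
    rw [pd_mul]; ring
  | succ m ih =>
    rw [Function.iterate_succ_apply', ih, map_add, pd_mul, pd_mul, pd_mul, hc]
    have hm : pd 2 ((m : A) + 1) = 0 := by
      have := Derivation.map_natCast (pd 2) (m + 1)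
      push_cast at this
      exact this
    rw [hm, Function.iterate_succ_apply' (pd 2) (m + 1)]
    rw [← Function.iterate_succ_apply' (pd 2) m]
    push_cast
    ring

theorem nilp (p : A) : ∃ m, (pd 2)^[m] p = 0 := by
  induction p using MvPolynomial.induction_on with
  | C a => exact ⟨1, by
      have := (pd 2).map_algebraMap a
      simp⟩
  | add p q hp hq =>
    obtain ⟨m, hm⟩ := hp
    obtain ⟨n, hn⟩ := hq
    refine ⟨m + n, ?_⟩
    rw [iterate_map_add, Function.iterate_add_apply (pd 2) m n q, hn, add_comm m n,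
      Function.iterate_add_apply, hm, iterate_map_zero, iterate_map_zero, add_zero]
  | mul_X p i hp =>
    obtain ⟨m, hm⟩ := hp
    refine ⟨m + 1, ?_⟩
    rw [iter_mul, Function.iterate_succ_apply', hm, map_zero, mul_zero, mul_zero, add_zero]

/-- A nonzero polynomial cannot satisfy `2 u_2 F + 3 L^2 ∂_2 F = 0`. -/
theorem no_exp (F : A) (h : 2 * (F * X 2) + 3 * (L * L * pd 2 F) = 0) : F = 0 := by
  have hL : ∀ (m : ℕ) (p : A), (pd 2)^[m] (L * L * p) = L * L * (pd 2)^[m] p := by
    intro m
    induction m with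
    | zero => intro p; rfl
    | succ m ih =>
      intro p
      rw [Function.iterate_succ_apply, Function.iterate_succ_apply, ← ih]
      congr 1
      rw [pd_mul, pd_mul, pd_L 2 (by norm_num), if_neg (by norm_num)]
      ring
  have h2 : ∀ (m : ℕ) (p : A), (pd 2)^[m] (2 * p) = 2 * (pd 2)^[m] p := by
    intro m p
    rw [two_mul, iterate_map_add, two_mul]
  have h3 : ∀ (m : ℕ) (p : A), (pd 2)^[m] (3 * p) = 3 * (pd 2)^[m] p := by
    intro m p
    rw [show (3 : A) * p = p + p + p by ring, iterate_map_add, iterate_map_add]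
    ring
  obtain ⟨m, hm⟩ := nilp F
  induction m with
  | zero => exact hm
  | succ m ih =>
    apply ih
    have h4 := congrArg ((pd 2)^[m + 1]) h
    rw [iterate_map_add, h2, h3, hL, iter_mul, hm, iterate_map_zero,
      ← Function.iterate_succ_apply (pd 2) (m + 1), Function.iterate_succ_apply' (pd 2) (m + 1),
      hm, map_zero, pd_X, if_pos rfl] at h4
    have h5 : (2 * ((m : A) + 1)) * (pd 2)^[m] F = 0 := by linear_combination h4
    rcases mul_eq_zero.1 h5 with h6 | h6
    · exfalso
      have h7 : ((2 * (m + 1) : ℕ) : A) = 0 := by push_cast; exact h6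
      rw [Nat.cast_eq_zero] at h7
      omega
    · exact h6

theorem three_ne : (3 : A) ≠ 0 := by
  have : ((3 : ℕ) : A) ≠ 0 := Nat.cast_ne_zero.2 (by norm_num)
  exact_mod_cast this

theorem top_zero (f : A) (n : ℕ) (hn : 5 ≤ n) (hf : Ord f n) (h : dprod f g = 0) :
    pd n f = 0 := by
  have h1 := lead_eq f n hn hf h
  set F := pd n f with hF
  have hFo : Ord F n := hf.pd n
  rw [g3', g2, d_mul, dL, d_two] at h1
  set N : A := (n : A) - 3 with hN
  have hNd : ∀ j, pd j N = 0 := by
    intro j
    have := Derivation.map_natCast (pd j) n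
    have h3 := Derivation.map_natCast (pd j) 3
    rw [hN, map_sub, this]
    have : pd j (3 : A) = 0 := by exact_mod_cast h3
    rw [this, sub_zero]
  have E1 : N * F * (X 4 - 2 * X 2) + 2 * X 2 * F = 3 * L * d F := by
    have h2 : (2 : A) ≠ 0 := two_ne_zero
    apply mul_left_cancel₀ h2
    linear_combination h1
  -- the order of `F` is at most three
  have hord : ∀ j, 4 ≤ j → pd (j + 1) F = 0 → pd j F = 0 := by
    intro j hj hj1
    have e := congrArg (pd (j + 1)) E1
    simp only [map_add, map_sub, pd_mul, pd_succ_d, pd_X, pd_two, hNd, hj1, map_zero] at e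
    rw [pd_L (j + 1) (by omega)] at e
    rw [if_neg (by omega), if_neg (by omega), if_neg (by omega)] at e
    have h3 : pd (j + 1) (3 : A) = 0 := by
      have h3 := Derivation.map_natCast (pd (j + 1)) 3
      exact_mod_cast h3
    rw [h3] at e
    have e2 : 3 * L * pd j F = 0 := by linear_combination -e
    rcases mul_eq_zero.1 e2 with h6 | h6
    · exfalso
      rcases mul_eq_zero.1 h6 with h7 | h7
      · exact three_ne h7
      · exact L_ne h7
    · exact h6
  have hord' : ∀ k j, 4 ≤ j → n < j + k → pd j F = 0 := by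
    intro k
    induction k with
    | zero => intro j _ hk; exact hFo j (by omega)
    | succ k ih =>
      intro j hj hk
      exact hord j hj (ih (j + 1) (by omega) (by omega))
  have hF4 : ∀ j, 4 ≤ j → pd j F = 0 := fun j hj => hord' (n + 1) j hj (by omega)
  have h3c : ∀ j, pd j (3 : A) = 0 := by
    intro j
    have h3 := Derivation.map_natCast (pd j) 3
    exact_mod_cast h3
  have Ea : N * F = 3 * L * pd 3 F := by
    have e := congrArg (pd 4) E1
    simp only [map_add, map_sub, pd_mul, pd_succ_d 3, pd_X, pd_two, hNd, hF4 4 le_rfl,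
      pd_L 4 (by norm_num), h3c, map_zero] at e
    norm_num at e
    linear_combination e
  have E3 : N * pd 3 F * (X 4 - 2 * X 2) + 2 * X 2 * pd 3 F
      = 3 * d F + 3 * L * (d (pd 3 F) + pd 2 F) := by
    have e := congrArg (pd 3) E1
    simp only [map_add, map_sub, pd_mul, pd_succ_d 2, pd_X, pd_two, hNd,
      pd_L 3 (by norm_num), h3c] at e
    norm_num at e
    linear_combination e
  have Ed : N * d F = 3 * (X 4 - 2 * X 2) * pd 3 F + 3 * L * d (pd 3 F) := by
    have e := congrArg d Ea
    have hdN : d N = 0 := by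
      have := Derivation.map_natCast d n
      have h3 := Derivation.map_natCast d 3
      rw [hN, map_sub, this]
      have : d (3 : A) = 0 := by exact_mod_cast h3
      rw [this, sub_zero]
    have hd3 : d (3 : A) = 0 := by
      have h3 := Derivation.map_natCast d 3
      exact_mod_cast h3
    simp only [d_mul, dL, hdN, hd3] at e
    linear_combination e
  apply no_exp
  apply mul_left_cancel₀ three_ne
  linear_combination (3 + N) * E1 - (N * (X 4 - 2 * X 2) + 2 * X 2 + 3 * (X 4 - 2 * X 2)) * Ea
    - 3 * L * E3 + 3 * L * Ed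

/-! ### Elements of order at most four -/

theorem ord_four (f : A) (h : dprod f g = 0) : Ord f 4 := by
  have key : ∀ k, Ord f (4 + k) → Ord f 4 := by
    intro k
    induction k with
    | zero => exact id
    | succ k ih =>
      intro hk
      apply ih
      intro j hj
      rcases Nat.lt_or_ge (4 + (k + 1)) j with h1 | h1
      · exact hk j h1
      · have : j = 4 + (k + 1) := by omega
        rw [this]
        exact top_zero f _ (by omega) hk h
  apply key (f.vars.sup id)
  intro j hj
  apply pderiv_eq_zero_of_notMem_vars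
  intro hmem
  have := Finset.le_sup (f := id) hmem
  simp only [id] at this
  omega

theorem const_of_pd (p : A) (h : ∀ i, pd i p = 0) : p = C (coeff 0 p) := by
  ext m
  rw [coeff_C]
  by_cases hm : 0 = m
  · rw [if_pos hm, hm]
  · rw [if_neg hm]
    obtain ⟨i, hi⟩ : ∃ i, m i ≠ 0 := by
      by_contra hcon
      push Not at hcon
      exact hm (Finsupp.ext fun i => (hcon i).symm)
    have h1 := coeff_pderiv (i := i) p (m - Finsupp.single i 1)
    rw [show pderiv i p = 0 from h i, coeff_zero] at h1
    have h2 : m - Finsupp.single i 1 + Finsupp.single i 1 = m := by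
      ext j
      simp only [Finsupp.coe_add, Finsupp.coe_tsub, Pi.add_apply, Pi.sub_apply]
      by_cases hij : i = j
      · subst hij; simp; omega
      · simp [hij]
    rw [h2] at h1
    rcases mul_eq_zero.1 h1.symm with h3 | h3
    · exact h3
    · exfalso
      have h4 : (0 : ℝ) ≤ (((m - Finsupp.single i 1 : ℕ →₀ ℕ) i : ℕ) : ℝ) := Nat.cast_nonneg _
      linarith

theorem dprod_X4 : dprod (X 4) g = 0 := by
  have hf : Ord (X 4) 4 := by
    intro j hj
    rw [pd_X, if_neg (by omega)]
  rw [dprod_formula _ 4 (by norm_num) hf, g1, g2, g3]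
  simp only [Finset.sum_range_succ, Finset.sum_range_zero, pd_X, if_true]
  rw [if_neg (by norm_num), if_neg (by norm_num), if_neg (by norm_num), if_neg (by norm_num)]
  unfold g
  simp only [Function.iterate_succ, Function.iterate_zero, Function.comp, id]
  have h4 := d_four
  have h2 := d_two
  simp only [map_add, map_sub, map_neg, d_mul, d_X, h4, h2, map_zero]
  ring

theorem mem_H (f : A) (h : dprod f g = 0) : ∃ c : ℝ, f = c • X 4 := by
  have hf := ord_four f h
  rw [dprod_formula f 4 (by norm_num) hf] at h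
  have hf5 : pd 5 f = 0 := hf 5 (by norm_num)
  have hf6 : pd 6 f = 0 := hf 6 (by norm_num)
  have c3 : ∀ j, pd j (3 : A) = 0 := by
    intro j
    have h3 := Derivation.map_natCast (pd j) 3
    exact_mod_cast h3
  have d3 : d (3 : A) = 0 := by
    have h3 := Derivation.map_natCast d 3
    exact_mod_cast h3
  have q : ∀ i j, 4 < j → pd j (pd i f) = 0 := fun i j hj => hf.pd i j hj
  have e6 : 3 * L * d (pd 4 f) = X 4 * pd 4 f - f := by
    have h0 := congrArg (pd 6) h
    simp only [Finset.sum_range_succ, Finset.sum_range_zero] at h0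
    have a4 : pd 6 (d^[4] g) = pd 2 g + ((4 : ℕ) : A) * d (pd 3 g) := sub_iter 4
    have a3 : pd 6 (d^[3] g) = pd 3 g := lead_iter 3
    have a2 : pd 6 (d^[2] g) = 0 := ord_iter 2 6 (by norm_num)
    have a1 : pd 6 (d^[1] g) = 0 := ord_iter 1 6 (by norm_num)
    have a0 : pd 6 (d^[0] g) = 0 := ord_iter 0 6 (by norm_num)
    rw [map_zero, map_sub, map_add, map_sub, map_add, map_add, map_add, map_add, map_add, map_zero,
      pd_mul, pd_mul, pd_mul, pd_mul, pd_mul, a0, a1, a2, a3, a4, q _ 6 (by norm_num),
      q _ 6 (by norm_num), q _ 6 (by norm_num), q _ 6 (by norm_num), q _ 6 (by norm_num),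
      pd_succ_d 5, pd_d2 4, pd_d3 3, g1, g2, g3'] at h0
    simp only [pd_mul, pd_X, pd_two, pd_four, map_neg, hf5, hf6, Nat.reduceAdd,
      pd_L 6 (by norm_num), pd_L 5 (by norm_num), pd_L 4 (by norm_num), pd_L 3 (by norm_num),
      d_mul, dL, d_two, if_true] at h0
    norm_num at h0
    rw [dL, d_two] at h0
    apply mul_left_cancel₀ (two_ne_zero : (2 : A) ≠ 0)
    linear_combination -h0
  set a := pd 4 f with ha
  have canc : ∀ p : A, 3 * L * p = 0 → p = 0 := by
    intro p hp
    rcases mul_eq_zero.1 hp with h6 | h6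
    · exfalso
      rcases mul_eq_zero.1 h6 with h7 | h7
      · exact three_ne h7
      · exact L_ne h7
    · exact h6
  have a5 : pd 5 a = 0 := q 4 5 (by norm_num)
  have a4 : pd 4 a = 0 := by
    apply canc
    have e := congrArg (pd 5) e6
    simp only [map_sub, pd_mul, pd_succ_d 4, pd_X, c3, pd_L 5 (by norm_num), hf5, a5,
      map_zero] at e
    norm_num at e
    rcases e with e | e
    · exact absurd e L_ne
    · rw [e, mul_zero]
  have a3 : pd 3 a = 0 := by
    apply canc
    have e := congrArg (pd 4) e6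
    simp only [map_sub, pd_mul, pd_succ_d 3, pd_X, c3, pd_L 4 (by norm_num), a4, ← ha,
      map_zero] at e
    norm_num at e
    rcases e with e | e
    · exact absurd e L_ne
    · rw [e, mul_zero]
  have f3 : pd 3 f = - (3 * d a) - 3 * L * pd 2 a := by
    have e := congrArg (pd 3) e6
    simp only [map_sub, pd_mul, pd_succ_d 2, pd_X, c3, pd_L 3 (by norm_num), a3,
      map_zero] at e
    norm_num at e
    linear_combination e
  have ef : f = X 4 * a - 3 * L * d a := by linear_combination e6
  -- the second coefficient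
  have e5 : 15 * L * d (d a) - 10 * X 2 * d a - 6 * X 2 * L * pd 2 a
      + 9 * L * (X 4 - 2 * X 2) * pd 2 a + 9 * L * L * d (pd 2 a) = 0 := by
    have h0 := congrArg (pd 5) h
    simp only [Finset.sum_range_succ, Finset.sum_range_zero] at h0
    have b3 : pd 5 (d^[3] g) = pd 2 g + ((3 : ℕ) : A) * d (pd 3 g) := sub_iter 3
    have b2 : pd 5 (d^[2] g) = pd 3 g := lead_iter 2
    have b1 : pd 5 (d^[1] g) = 0 := ord_iter 1 5 (by norm_num)
    have b0 : pd 5 (d^[0] g) = 0 := ord_iter 0 5 (by norm_num)
    have c1 : pd 2 (d^[1] g) = pd 1 g + d (pd 2 g) := by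
      rw [Function.iterate_one, pd_succ_d 1]; ring
    have c2 : pd 3 (d^[2] g) = pd 1 g + 2 * d (pd 2 g) + d (d (pd 3 g)) := by
      have : pd 3 (d^[1] g) = pd 2 g + ((1 : ℕ) : A) * d (pd 3 g) := sub_iter 1
      rw [Function.iterate_succ_apply', pd_succ_d 2, this, c1, map_add]
      simp
      ring
    have c3' : pd 4 (d^[3] g) = pd 1 g + 3 * d (pd 2 g) + 3 * d (d (pd 3 g)) := by
      have : pd 4 (d^[2] g) = pd 2 g + ((2 : ℕ) : A) * d (pd 3 g) := sub_iter 2
      rw [Function.iterate_succ_apply', pd_succ_d 3, this, c2, map_add, d_mul,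
        Derivation.map_natCast]
      push_cast
      ring
    have b4 : pd 5 (d^[4] g) = pd 1 g + 4 * d (pd 2 g) + 6 * d (d (pd 3 g)) := by
      rw [Function.iterate_succ_apply', pd_succ_d 4, b3, c3', map_add, d_mul,
        Derivation.map_natCast]
      push_cast
      ring
    rw [map_zero, map_sub, map_add, map_sub, map_add, map_add, map_add, map_add, map_add, map_zero,
      pd_mul, pd_mul, pd_mul, pd_mul, pd_mul, b0, b1, b2, b3, b4, q _ 5 (by norm_num),
      q _ 5 (by norm_num), q _ 5 (by norm_num), q _ 5 (by norm_num), q _ 5 (by norm_num),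
      pd_succ_d 4, pd_d2 3, pd_d3 2, g1, g2, g3'] at h0
    simp only [pd_mul, pd_X, pd_two, pd_four, map_neg, hf5, Nat.reduceAdd,
      pd_L 5 (by norm_num), pd_L 4 (by norm_num), pd_L 3 (by norm_num),
      pd_L 2 (by norm_num), map_zero, mul_zero, zero_add, add_zero, ← ha, f3] at h0
    norm_num at h0
    rw [ef] at h0
    have h4 := d_four
    have h2 := d_two
    have h3 := d3
    simp only [map_add, map_sub, map_neg, d_mul, dL, d_X, h4, h2, h3, map_zero] at h0
    apply mul_left_cancel₀ (two_ne_zero : (2 : A) ≠ 0)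
    linear_combination h0
  have nat0 : ∀ (k j : ℕ), pd j ((k : ℕ) : A) = 0 := fun k j => Derivation.map_natCast (pd j) k
  have k15 : ∀ j, pd j (15 : A) = 0 := fun j => by exact_mod_cast nat0 15 j
  have k10 : ∀ j, pd j (10 : A) = 0 := fun j => by exact_mod_cast nat0 10 j
  have k6 : ∀ j, pd j (6 : A) = 0 := fun j => by exact_mod_cast nat0 6 j
  have k9 : ∀ j, pd j (9 : A) = 0 := fun j => by exact_mod_cast nat0 9 j
  have r : ∀ i j, 2 < j → pd j (pd i a) = 0 := by
    intro i j hj
    rw [pd_comm]
    rcases Nat.lt_or_ge 4 j with h1 | h1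
    · rw [q 4 j h1, map_zero]
    · interval_cases j
      · rw [a3, map_zero]
      · rw [a4, map_zero]
  have d4a : pd 4 (d a) = 0 := by rw [pd_succ_d 3, a4, a3, map_zero, zero_add]
  have d3a : pd 3 (d a) = pd 2 a := by rw [pd_succ_d 2, a3, map_zero, zero_add]
  have dd4a : pd 4 (d (d a)) = pd 2 a := by rw [pd_d2 2, a4, a3, map_zero, map_zero]; ring
  have a2 : pd 2 a = 0 := by
    have e := congrArg (pd 4) e5
    have t1 : pd 4 (d (pd 2 a)) = 0 := by
      rw [pd_succ_d 3, r 2 4 (by norm_num), r 2 3 (by norm_num), map_zero, zero_add]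
    simp only [map_add, map_sub, pd_mul, pd_X, k15, k10, k6, k9, pd_two, pd_L 4 (by norm_num),
      d4a, dd4a, t1, r 2 4 (by norm_num), map_zero] at e
    norm_num at e
    have e2 : (8 : A) * (3 * L * pd 2 a) = 0 := by linear_combination e
    rcases mul_eq_zero.1 e2 with h6 | h6
    · exfalso
      have h7 : ((8 : ℕ) : A) = 0 := by exact_mod_cast h6
      rw [Nat.cast_eq_zero] at h7
      omega
    · exact canc _ h6
  rw [a2] at e5 f3
  have e5' : 3 * L * d (d a) = 2 * X 2 * d a := by
    have h7 : (5 : A) ≠ 0 := by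
      have : ((5 : ℕ) : A) ≠ 0 := Nat.cast_ne_zero.2 (by norm_num)
      exact_mod_cast this
    apply mul_left_cancel₀ h7
    simp only [mul_zero, map_zero] at e5
    linear_combination e5
  have d3a' : pd 3 (d a) = 0 := by rw [d3a, a2]
  have dd3a : pd 3 (d (d a)) = pd 1 a := by
    rw [pd_d2 1, a3, a2, map_zero, map_zero]; ring
  have e3a : d (d a) + L * pd 1 a = 0 := by
    have e := congrArg (pd 3) e5'
    simp only [pd_mul, pd_X, c3, pd_two, pd_L 3 (by norm_num), d3a', dd3a] at e
    norm_num at e
    apply mul_left_cancel₀ three_ne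
    linear_combination e
  have a1 : pd 1 a = 0 := by
    have e := congrArg (pd 3) e3a
    simp only [map_add, pd_mul, pd_L 3 (by norm_num), dd3a, r 1 3 (by norm_num), map_zero] at e
    norm_num at e
    exact e
  have a0 : pd 0 a = 0 := by
    rw [a1, mul_zero, add_zero] at e3a
    have e := congrArg (pd 2) e3a
    rw [pd_d2 0, a2, a1, map_zero, map_zero, map_zero] at e
    simpa using e
  have hall : ∀ i, pd i a = 0 := by
    intro i
    rcases Nat.lt_or_ge 4 i with h1 | h1
    · exact q 4 i h1
    · interval_cases i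
      · exact a0
      · exact a1
      · exact a2
      · exact a3
      · exact a4
  have hc := const_of_pd a hall
  refine ⟨coeff 0 a, ?_⟩
  have hda : d a = 0 := by
    rw [hc]
    exact d.map_algebraMap _
  rw [ef, hda, mul_zero, sub_zero, smul_eq_C_mul, ← hc, mul_comm]

theorem H_eq : H g = Submodule.span ℝ {X 4} := by
  ext f
  rw [Submodule.mem_span_singleton]
  constructor
  · intro hf
    obtain ⟨c, hc⟩ := mem_H f hf
    exact ⟨c, hc.symm⟩
  · rintro ⟨c, rfl⟩
    exact (H g).smul_mem c dprod_X4

end Pool.Agent.H0.Jet
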